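import Mathlib
import Pool.Agent.Q190.RV.Laws

/-!
# The `L`-function condition of the global Gan-Gross-Prasad conjecture and ratios of Euler products

Let `π_V`, `π_W` be tempered cuspidal representations of `G(V)`, `G(W)` over the number field `K` (the field `F` of the
problem), `r_{v,j}`, `v ∉ S`, `1 ≤ j ≤ n`, the eigenvalues of `R` at the Satake parameters, of absolute value `1` by
temperedness, and `F(s) = L^S(s, π_V ⊠ π_W) = ∏_{v ∉ S} ∏_j (1 - r_{v,j} q_v^{-s})⁻¹` (`Re s > 1`), continued to a holomorphic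
function of polynomial growth in a half plane `Re s > 1/2 - η`. Let

`P(y) = ∏_{v ∉ S, q_v ≤ y} |∏_j (1 - r_{v,j} q_v^{-1/2})|`,
`P*(y) = exp (- ∑_{v ∉ S, q_v^k ≤ y} Re (∑_j r_{v,j}^k) / (k q_v^{k/2}))`.

Nothing is supposed on the zeros of `F`, and no power of `log y` occurs. The following holds for `R = P` and `R = P*`.

1. If `R(y^l) ≤ Q R(y)` for all large `y`, for ONE `l > 1`, then `F` has no zeros with `Re s > 1/2`; the value `F(1/2)` is not
   zero if `Q < l`, or if `Q < l²` and the order of `F` at `1/2` is even (root number `1`, the case in which the local Hom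
   spaces are not zero).
2. If `F(1/2) = 0`, then for every `l > 1` and `Q < l` (`Q < l²` if the order is even) there are arbitrarily large `y` with
   `R(y^l) > Q R(y)`, whether or not there are zeros with `Re s > 1/2`.
3. If `R(y^l) / R(y)` converges to `ρ` for one `l > 1`, then `F` has no zeros with `Re s > 1/2`, and `F(1/2) ≠ 0` if and only
   if `ρ = 1`, and if and only if `ρ < l`.
4. The following are equivalent: `P*` converges to a positive number; `F(1/2) ≠ 0` and `P*(y)` converges to `1/|F(1/2)|`;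
   for all `l` in a set of positive outer measure in `(1, ∞)` and all `ε > 0`, `P*(y^l) ≤ (1 + ε) P*(y)` for all large `y`.
5. `P` is bounded between positive constants if and only if `F(1/2) ≠ 0` and for all `l` in a set of positive outer
   measure in `(1, ∞)` there is a `Q(l)` with `P(y^l) ≤ Q(l) P(y)` for all large `y`.
-/

set_option autoImplicit false

namespace Pool.Agent.Results.MP_41920c_nt.CentralRatios

open Filter Topology Set Complex NumberField IsDedekindDomain MeasureTheory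

variable {K : Type} [Field K] [NumberField K] {n : ℕ}

/-- `q_v` -/
noncomputable def norm (v : HeightOneSpectrum (𝓞 K)) : ℕ := Ideal.absNorm v.asIdeal

/-- The numbers `r_{v,j}`, `v ∉ S`, have the absolute value `1`, `F` is holomorphic, of polynomial growth in a half plane
`Re s > 1/2 - η`, and for `Re s > 1` it is the Euler product. -/
structure IsL (S : Finset (HeightOneSpectrum (𝓞 K))) (r : HeightOneSpectrum (𝓞 K) → Fin n → ℂ) (F : ℂ → ℂ) :
    Prop where
  abs : ∀ v, v ∉ S → ∀ j, ‖r v j‖ = 1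
  holo : ∃ (η C : ℝ) (k : ℕ), 0 < η ∧ ∀ s : ℂ, 1 / 2 - η < s.re → DifferentiableAt ℂ F s ∧ ‖F s‖ ≤ C * (1 + ‖s‖) ^ k
  euler : ∀ s : ℂ, 1 < s.re → HasProd (fun v : {v : HeightOneSpectrum (𝓞 K) // v ∉ S} =>
    (∏ j, (1 - r v.1 j * (norm v.1 : ℂ) ^ (-s)))⁻¹) (F s)

/-- `P(y) = ∏_{v ∉ S, q_v ≤ y} |∏_j (1 - r_{v,j} q_v^{-1/2})|` -/
noncomputable def product (S : Finset (HeightOneSpectrum (𝓞 K))) (r : HeightOneSpectrum (𝓞 K) → Fin n → ℂ)
    (y : ℝ) : ℝ :=
  ∏ᶠ v ∈ {v : HeightOneSpectrum (𝓞 K) | v ∉ S ∧ (norm v : ℝ) ≤ y}, ‖∏ j, (1 - r v j * (norm v : ℂ) ^ (-(1 / 2 : ℂ)))‖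

/-- `P*(y) = exp (- ∑_{v ∉ S, q_v^k ≤ y} Re (∑_j r_{v,j}^k) / (k q_v^{k/2}))`, the (finite) sum over the pairs `(v, k)`, `v` a
place outside of `S`, `k = x.2 + 1 ≥ 1`, with `q_v^k ≤ y` -/
noncomputable def productStar (S : Finset (HeightOneSpectrum (𝓞 K))) (r : HeightOneSpectrum (𝓞 K) → Fin n → ℂ)
    (y : ℝ) : ℝ :=
  Real.exp (-∑ᶠ (x : {v : HeightOneSpectrum (𝓞 K) // v ∉ S} × ℕ) (_ : (norm x.1.1 : ℝ) ^ (x.2 + 1) ≤ y),
    (∑ j, r x.1.1 j ^ (x.2 + 1)).re / (((x.2 : ℝ) + 1) * ((norm x.1.1 : ℝ) ^ (1 / 2 : ℝ)) ^ (x.2 + 1)))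

/-- The order of `F` at `1/2` is even. -/
def EvenOrder (F : ℂ → ℂ) : Prop := ∃ m : ℕ, analyticOrderAt F (1 / 2) = m ∧ Even m

/-- `F` has no zeros with `Re s > 1/2`. -/
def NoZeros (F : ℂ → ℂ) : Prop := ∀ s : ℂ, 1 / 2 < s.re → F s ≠ 0

/-- `R(y^l) ≤ Q R(y)` for all large `y` -/
def Upper (R : ℝ → ℝ) (l Q : ℝ) : Prop := ∀ᶠ y : ℝ in atTop, R (y ^ l) ≤ Q * R y

/-- `Q < l`, or `Q < l²` and the order of `F` at `1/2` is even -/
def Small (F : ℂ → ℂ) (l Q : ℝ) : Prop := Q < l ∨ (EvenOrder F ∧ Q < l ^ 2)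

theorem half_c : (1 / 2 : ℝ) = (((0 : ℕ) : ℝ) + 1) / 2 := by norm_num

/-- **The central value for Gan-Gross-Prasad and ratios of Euler products.** -/
theorem result (K : Type) [Field K] [NumberField K] (n : ℕ) (S : Finset (HeightOneSpectrum (𝓞 K)))
    (r : HeightOneSpectrum (𝓞 K) → Fin n → ℂ) (F : ℂ → ℂ) (hF : IsL S r F) :
    (∀ R : ℝ → ℝ, R = product S r ∨ R = productStar S r →
      -- (1) nonvanishing from one exponent
      (∀ l Q : ℝ, 1 < l → Upper R l Q → NoZeros F ∧ (Small F l Q → F (1 / 2) ≠ 0)) ∧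
      -- (2) growth forced by vanishing
      (F (1 / 2) = 0 → ∀ l Q : ℝ, 1 < l → Small F l Q → ∃ᶠ y : ℝ in atTop, Q * R y < R (y ^ l)) ∧
      -- (3) the limit for one exponent
      (∀ l ρ : ℝ, 1 < l → Tendsto (fun y : ℝ => R (y ^ l) / R y) atTop (𝓝 ρ) →
        NoZeros F ∧ (F (1 / 2) ≠ 0 ↔ ρ = 1) ∧ (F (1 / 2) ≠ 0 ↔ ρ < l))) ∧
    -- (4) convergence
    List.TFAE [
      ∃ b : ℝ, 0 < b ∧ Tendsto (productStar S r) atTop (𝓝 b),
      F (1 / 2) ≠ 0 ∧ Tendsto (productStar S r) atTop (𝓝 (1 / ‖F (1 / 2)‖)),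
      ∃ Λ : Set ℝ, Λ ⊆ Ioi 1 ∧ volume Λ ≠ 0 ∧ ∀ l ∈ Λ, ∀ ε : ℝ, 0 < ε → Upper (productStar S r) l (1 + ε)] ∧
    -- (5) bounded products
    ((∃ A B : ℝ, 0 < A ∧ ∀ᶠ y : ℝ in atTop, A ≤ product S r y ∧ product S r y ≤ B) ↔
      F (1 / 2) ≠ 0 ∧ ∃ Λ : Set ℝ, Λ ⊆ Ioi 1 ∧ volume Λ ≠ 0 ∧ ∀ l ∈ Λ, ∃ Q : ℝ, Upper (product S r) l Q) := by
  have hb : Pool.Agent.Q18.P.Bdd 0 S r := by
    intro v hv j
    rw [hF.abs v hv j]
    simp
  have hH : Pool.Agent.Q190.RV.Holo (1 / 2) S r F :=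
    ⟨hF.holo, fun s hs => (hF.euler s (by linarith)).congr_fun fun v => rfl⟩
  obtain ⟨m, hm⟩ := hH.order_finite' half_c hb
  have hcast : (((1 / 2 : ℝ)) : ℂ) = 1 / 2 := by push_cast; rfl
  have hm' : analyticOrderAt F (1 / 2) = m := by rw [← hcast]; exact hm
  have han : AnalyticAt ℂ F (1 / 2) := by
    have := hH.analytic.1
    rwa [hcast] at this
  have hv : F (1 / 2) ≠ 0 ↔ m = 0 := by
    have h1 := han.analyticOrderAt_eq_zero
    rw [hm'] at h1
    rw [← h1]
    exact Nat.cast_eq_zero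
  have hsmall : ∀ l Q : ℝ, 1 < l → Small F l Q → 0 < m → Q < l ^ m := by
    rintro l Q hl (h1 | ⟨⟨k, hk, hk2⟩, h1⟩) h0
    · calc Q < l := h1
        _ = l ^ 1 := (pow_one l).symm
        _ ≤ l ^ m := pow_le_pow_right₀ hl.le (by omega)
    · rw [hm'] at hk
      have h3 : m = k := Nat.cast_inj.1 hk
      obtain ⟨t, ht⟩ := hk2
      exact lt_of_lt_of_le h1 (pow_le_pow_right₀ hl.le (by omega))
  have e1 : product S r = Pool.Agent.Q18.P.product (1 / 2) S r := by
    funext y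
    unfold product Pool.Agent.Q18.P.product
    refine finprod_congr fun v => finprod_congr fun _ => ?_
    push_cast
    rfl
  have e2 : productStar S r = Pool.Agent.Q18.P.productStar (1 / 2) S r := rfl
  have o1 := (Pool.Agent.Q190.RV.order_law half_c hb hH hm).1 0
  have t := Pool.Agent.Q190.RV.s_value half_c hb hH
  rw [hcast] at t
  rw [e1, e2]
  refine ⟨fun R hR => ?_, ?_, ?_⟩
  · have hR' : Pool.Agent.Q190.RV.Ratios (1 / 2) F m R := by
      rcases hR with rfl | rfl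
      · exact Pool.Agent.Q190.RV.ratios half_c hb hH hm
      · exact Pool.Agent.Q190.RV.ratios_star half_c hb hH hm
    refine ⟨fun l Q hl hQ => ⟨(hR'.upper l Q hl hQ).1, fun h1 => hv.2 ?_⟩, fun h0 l Q hl h1 => ?_, fun l ρ hl hρ => ?_⟩
    · by_contra hne
      exact absurd (hR'.upper l Q hl hQ).2 (not_le.2 (hsmall l Q hl h1 (Nat.pos_of_ne_zero hne)))
    · refine hR'.freq hl (hsmall l Q hl h1 (Nat.pos_of_ne_zero fun h2 => ?_))
      exact hv.2 h2 h0
    · obtain ⟨h1, h2⟩ := hR'.limit l ρ hl hρ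
      refine ⟨h1, ?_, ?_⟩
      · rw [hv, h2]
        constructor
        · rintro rfl
          exact pow_zero l
        · intro h3
          by_contra hne
          have := one_lt_pow₀ hl hne
          linarith
      · rw [hv, h2]
        constructor
        · rintro rfl
          rw [pow_zero]
          exact hl
        · intro h3
          have h4 : l ^ m < l ^ 1 := by rwa [pow_one]
          have := (pow_lt_pow_iff_right₀ hl).1 h4
          omega
  · have t1 := t.out 0 1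
    have t2 := t.out 1 2
    tfae_have 1 ↔ 2 := t1.symm
    tfae_have 1 ↔ 3 := t2
    tfae_finish
  · have h2 : (∃ A B : ℝ, 0 < A ∧ ∀ᶠ y : ℝ in atTop, A ≤ Pool.Agent.Q18.P.product (1 / 2) S r y ∧
        Pool.Agent.Q18.P.product (1 / 2) S r y ≤ B) ↔
        Pool.Agent.Q190.RV.OfOrder (Pool.Agent.Q18.P.product (1 / 2) S r) 0 := by
      unfold Pool.Agent.Q190.RV.OfOrder
      simp only [Real.rpow_zero, mul_one]
    rw [h2, o1, hv]
    refine and_congr ?_ Iff.rfl
    constructor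
    · intro h3
      exact_mod_cast h3.symm
    · intro h3
      rw [h3, Nat.cast_zero]

end Pool.Agent.Results.MP_41920c_nt.CentralRatios
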