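import Pool.Agent.Q5.NF.Half

/-!
# The central values of several `L`-functions `L^S(s, π_V ⊠ π_W)` and the joint law of their Euler products

For tempered `π_V`, `π_W` over a number field `K` the eigenvalues `r_{v,j}` of `R` at the Satake parameters, `v ∉ S`, have
absolute value `1` and real power sums. For a finite family of such pairs we study the joint distribution of the errors
of the partial Euler products at `1/2`.
-/

set_option autoImplicit false

open MeasureTheory Filter Topology Set Complex NumberField IsDedekindDomain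

namespace Pool.Agent.Results.MP_41920c_nt.JointLaw

open Pool.Agent.H921R2.TatePole (nm)
open Pool.Agent.Q5.NF (Roots IsL product dev)
open Pool.Agent.Q5.DC (HasJointLaw JointLaw)

/-- no zeros with `Re s > 1/2` -/
def RH (F : ℂ → ℂ) : Prop := ∀ s : ℂ, 1 / 2 < s.re → F s ≠ 0

/-- `ρ` is the order of `F` at `1/2` and `A` the leading coefficient: `F(s)/(s - 1/2)^ρ → A` -/
def Leading (F : ℂ → ℂ) (ρ A : ℝ) : Prop :=
  ∃ e : ℕ, ρ = e ∧ Tendsto (fun s : ℂ => F s / (s - 1 / 2) ^ e) (𝓝[≠] (1 / 2 : ℂ)) (𝓝 (A : ℂ))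

/-- the order of vanishing at `1/2 + it` -/
noncomputable def mult (F : ℂ → ℂ) (t : ℝ) : ℕ := (analyticOrderAt F (1 / 2 + t * I)).toNat

/-- `∫_e^X (log x · δ(x))² dx/x ≤ B log X` for some `B` and all large `X` -/
def BoundedMeanSquare (δ : ℝ → ℝ) : Prop := ∃ B : ℝ, ∀ᶠ X : ℝ in atTop,
  ∫ x in Real.exp 1..X, (Real.log x * δ x) ^ 2 / x ≤ B * Real.log X

/-- the Bessel function `J₀(x) = ∑ (-(x/2)²)^k/(k!)²` -/
noncomputable def J0 (x : ℝ) : ℝ := ∑' k : ℕ, (-(x / 2) ^ 2) ^ k / ((k.factorial : ℝ) ^ 2)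

/-- the positive ordinates of the zeros on the critical line of all members, as a family indexed by the pairs
`(i, t)`, are linearly independent over `ℚ` (so no two members have a common ordinate `t > 0`) -/
def Independent {ι : Type} (F : ι → ℂ → ℂ) : Prop :=
  LinearIndependent ℚ fun p : {p : ι × ℝ // 0 < p.2 ∧ mult (F p.1) p.2 ≠ 0} => (p.1.2 : ℝ)

/-- **The errors `E_i(x) = log x · δ_i(x)` are asymptotically independent and follow the random model**: for all
`h_ij ≥ 0` and real `ξ_ij` the means of `exp (i ∑_i ∑_j ξ_ij E_i(x e^(h_ij)))` tend to the product over all `(i, t)`,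
`t > 0`, of `J₀(2 m_i(t) |∑_j ξ_ij e^(i t h_ij)|/t)`. -/
def JointlyFollow {ι : Type} [Fintype ι] (F : ι → ℂ → ℂ) (δ : ι → ℝ → ℝ) : Prop :=
  ∀ (k : ℕ) (h ξ : ι → Fin k → ℝ), (∀ i j, 0 ≤ h i j) →
    ∃ L : ℂ, HasProd (fun p : ι × ℝ => (((if 0 < p.2 then J0 (2 * (mult (F p.1) p.2 *
        ‖∑ j, (ξ p.1 j : ℂ) * exp ((p.2 * h p.1 j : ℝ) * I)‖ / p.2)) else 1) : ℝ) : ℂ)) L ∧
      Tendsto (fun X : ℝ => (∫ x in Real.exp 1..X, exp (((∑ i, ∑ j, ξ i j *
        (Real.log (x * Real.exp (h i j)) * δ i (x * Real.exp (h i j))) : ℝ) : ℂ) * I) / x) / Real.log X)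
        atTop (𝓝 L)

/-! ### proofs -/

open Pool.Agent.Q5.LI (RHH LeadH multH facS kf bz bt)
open Pool.Agent.Q5.NF (errN lead_exists lead_zero lead_pos)
open Pool.Agent.Q5.AI (FamModel FamInd fam_iff)
open Pool.Agent.Q5.DC (joint_tfae)

theorem follows_eq {ι : Type} [Fintype ι] (F : ι → ℂ → ℂ) (δ : ι → ℝ → ℝ) :
    JointlyFollow F δ ↔ FamModel (fun i => multH (F i)) fun i x => Real.log x * δ i x := by
  unfold JointlyFollow FamModel
  refine forall_congr' fun k => forall_congr' fun h' => forall_congr' fun ξ => forall_congr' fun hh => ?_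
  refine exists_congr fun L => ?_
  refine and_congr_left fun _ => ?_
  have e : ∀ p : ι × ℝ, (if 0 < p.2 then J0 (2 * (mult (F p.1) p.2 *
      ‖∑ j, (ξ p.1 j : ℂ) * exp ((p.2 * h' p.1 j : ℝ) * I)‖ / p.2)) else 1) =
      facS (multH (F p.1)) (kf (h' p.1) (ξ p.1) p.2) p.2 := by
    intro p
    unfold facS
    split_ifs with ht
    · unfold J0 bz bt kf
      refine tsum_congr fun k => ?_
      rw [norm_div, norm_mul, Complex.norm_natCast, Complex.norm_real, Real.norm_of_nonneg ht.le,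
        mul_div_cancel_left₀ _ two_ne_zero]
      rfl
    · rfl
  simp only [e]

/-- **Central values of a finite family.** -/
theorem result (K : Type) [Field K] [NumberField K] {ι : Type} [Fintype ι] (n : ι → ℕ)
    (S : ι → Finset (HeightOneSpectrum (𝓞 K))) (r : ∀ i, HeightOneSpectrum (𝓞 K) → Fin (n i) → ℂ)
    (hr : ∀ i, Roots (S i) (r i)) (F : ι → ℂ → ℂ) (hF : ∀ i, IsL (S i) (r i) (F i)) :
    (∀ ρ A : ι → ℝ, (∀ i, 0 < A i) →
      List.TFAE [∀ i, RH (F i) ∧ Leading (F i) (ρ i) (A i),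
        ∀ i, BoundedMeanSquare (dev (S i) (r i) (ρ i) (A i)),
        HasJointLaw fun i => dev (S i) (r i) (ρ i) (A i),
        JointLaw (fun i => mult (F i)) fun i => dev (S i) (r i) (ρ i) (A i)] ∧
      ((∀ i, BoundedMeanSquare (dev (S i) (r i) (ρ i) (A i))) ∧
          JointlyFollow F (fun i => dev (S i) (r i) (ρ i) (A i)) ↔
        (∀ i, RH (F i) ∧ Leading (F i) (ρ i) (A i)) ∧ Independent F)) ∧
    ∀ Z : Set ι, ((∀ i, RH (F i)) ∧ ∀ i, F i (1 / 2) = 0 ↔ i ∈ Z) ↔
      ∃ ρ A : ι → ℝ, (∀ i, 0 < A i ∧ 0 ≤ ρ i ∧ (0 < ρ i ↔ i ∈ Z)) ∧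
        HasJointLaw fun i => dev (S i) (r i) (ρ i) (A i) := by
  have main : ∀ ρ A : ι → ℝ, (∀ i, 0 < A i) →
      List.TFAE [∀ i, RH (F i) ∧ Leading (F i) (ρ i) (A i),
        ∀ i, BoundedMeanSquare (dev (S i) (r i) (ρ i) (A i)),
        HasJointLaw fun i => dev (S i) (r i) (ρ i) (A i),
        JointLaw (fun i => mult (F i)) fun i => dev (S i) (r i) (ρ i) (A i)] := by
    intro ρ A hA
    exact joint_tfae (P := fun i => RHH (F i) ∧ LeadH (F i) (ρ i) (A i))
      (m := fun i => multH (F i)) (fun i => (errN (hr i) (hF i) (hA i)).1)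
      (fun i => (errN (hr i) (hF i) (hA i)).2.1) fun i => (errN (hr i) (hF i) (hA i)).2.2
  refine ⟨fun ρ A hA => ⟨main ρ A hA, ?_⟩, fun Z => ?_⟩
  · have h1 : (∀ i, RH (F i) ∧ Leading (F i) (ρ i) (A i)) ↔
        ∀ i, BoundedMeanSquare (dev (S i) (r i) (ρ i) (A i)) := (main ρ A hA).out 0 1
    rw [h1]
    refine and_congr_right fun hB => ?_
    have hP := h1.2 hB
    choose V hV P using fun i => (errN (hr i) (hF i) (hA i)).2.2 (hP i)
    rw [follows_eq]
    exact (fam_iff (fun i => (errN (hr i) (hF i) (hA i)).1) P).symm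
  · constructor
    · rintro ⟨h1, h2⟩
      choose e A hA hL using fun i => lead_exists (hr i) (hF i) (h1 i)
      refine ⟨fun i => e i, A, fun i => ⟨hA i, Nat.cast_nonneg _, ?_⟩, ?_⟩
      · rw [← h2 i]
        constructor
        · intro h3
          exact lead_pos (hF i) h3 (hL i)
        · intro h3
          by_contra h4
          have he : e i = 0 := by
            by_contra h5
            refine h4 ?_
            show (0 : ℝ) < (e i : ℝ)
            exact_mod_cast Nat.pos_of_ne_zero h5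
          have h5 := hL i
          rw [he, Nat.cast_zero] at h5
          have h6 := (lead_zero (hF i)).1 h5
          rw [h3] at h6
          have h7 : A i = 0 := by exact_mod_cast h6.symm
          exact (hA i).ne' h7
      · have h3 := (main (fun i => e i) A hA).out 0 2
        exact h3.1 fun i => ⟨h1 i, hL i⟩
    · rintro ⟨ρ, A, h1, h2⟩
      have h3 := (main ρ A fun i => (h1 i).1).out 0 2
      have h4 := h3.2 h2
      refine ⟨fun i => (h4 i).1, fun i => ?_⟩
      rw [← (h1 i).2.2]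
      constructor
      · intro h5
        by_contra h6
        have h7 : ρ i = 0 := le_antisymm (not_lt.1 h6) (h1 i).2.1
        have h8 : LeadH (F i) 0 (A i) := h7 ▸ (h4 i).2
        have h9 := (lead_zero (hF i)).1 h8
        rw [h5] at h9
        have h10 : A i = 0 := by exact_mod_cast h9.symm
        exact (h1 i).1.ne' h10
      · intro h5
        exact lead_pos (hF i) h5 (h4 i).2

end Pool.Agent.Results.MP_41920c_nt.JointLaw
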