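import Mathlib
import Pool.Agent.Q18.P.Cent

/-!
# Gan-Gross-Prasad: `L^S(1/2, π_V ⊠ π_W) ≠ 0` from a meromorphic continuation and one sequence of windows

Let `π_V`, `π_W` be tempered cuspidal automorphic representations as in the problem (orthogonal or Hermitian), `S` a finite
set of finite places of the number field `K` (`= F` in the problem) containing the bad ones, and `r_{v,j}`, `v ∉ S`, the
eigenvalues of `R` at the Satake parameter; they have absolute value `1` and are stable under `z ↦ z⁻¹`, because `R` is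
symplectic and the representations are tempered. Let `F` be a continuation of the partial `L`-function
`L^S(s, π_V ⊠ π_W) = ∏_{v ∉ S} ∏_j (1 - r_{v,j} q_v^{-s})⁻¹` (`Re s > 1`), as in the problem MEROMORPHIC only (it is enough to
have it at `s = 1/2` and for `Re s > 1/2`); no functional equation, no growth condition, no holomorphy. Let

`P(y) = ∏_{v ∉ S, q_v ≤ y} |∏_j (1 - r_{v,j} q_v^{-1/2})|`,
`P*(y) = exp (- ∑_{v ∉ S, q_v^k ≤ y} (∑_j r_{v,j}^k) / (k q_v^{k/2}))`.

Fix `0 < δ < 1`; the windows are `[Y^(1-δ), Y]`.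

(A) `F` meromorphic.
1. If `∫ |log P(y)| dy/y ≤ B log Y` over the windows of arbitrarily large `Y` (one sequence, as sparse as we like), then
   `F` has neither zeros nor poles with `Re s > 1/2`, and it is holomorphic and nonzero at `1/2` (after removing the
   singularity): the condition on the `L`-function in (i) of the problem holds, and the Riemann hypothesis.
2. If `F` has no real poles `> 1/2` and `∫ max (log P - κ log log y, 0) dy/y ≤ B log Y` for arbitrarily large `Y` with a
   `κ < 1`, then again there are no zeros and no poles with `Re s > 1/2`, and `ord_{s=1/2} F ≤ 0`: the central value is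
   not zero. If the order is even (root number `1`), any `κ < 2` will do.
3. If, for an `A > 0` and each `ε > 0`, `∫ |log (A P*(y))| dy/y ≤ ε log Y` for arbitrarily large `Y`, then moreover
   `|lim_{s → 1/2} F(s)| = A`.
4. If `F` has no real poles `> 1/2`, `ord_{s=1/2} F = 0` and `A > |lim_{s → 1/2} F(s)|`, then there is a `β > 0` with
   `∫ max (log (A P*(y)), 0) dy/y > β log Y` over ALL windows with large `Y`.
5. If `F` has no real poles `> 1/2` and the central value vanishes, then for every `B` and every `κ < 1` (`κ < 2` if the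
   order is even) `∫ max (log P - κ log log y, 0) dy/y > B log Y` over ALL windows with large `Y`: by (A) the vanishing
   of `L^S(1/2)` makes the products large in every window, whether or not the Riemann hypothesis holds.
(B) `F` holomorphic and of polynomial growth in a half plane `Re s > 1/2 - η`.
6. `F(1/2) ≠ 0` and the Riemann hypothesis hold together if and only if the bound of 1. holds, if and only if the bound of
   2. holds for one `κ` with `0 ≤ κ < 1` (`0 ≤ κ < 2`, if the order is even); in all cases, for arbitrarily large `Y`,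
   equivalently for all large `Y`.
-/

set_option autoImplicit false

namespace Pool.Agent.Results.MP_41920c_nt.MeromorphicWindows

open Filter Topology Set Complex NumberField IsDedekindDomain MeasureTheory ComplexConjugate
open Pool.Agent.Q18.P (norm Holo NoZeros NoRealPoles Free Order MeanBound error excess upTo SelfDual product
  productStar)

variable {K : Type} [Field K] [NumberField K] {n : ℕ}

/-- the centre -/
noncomputable def half : ℝ := 1 / 2

/-- The Euler product for `Re s > 1`. -/
def Euler (S : Finset (HeightOneSpectrum (𝓞 K))) (r : HeightOneSpectrum (𝓞 K) → Fin n → ℂ) (F : ℂ → ℂ) : Prop :=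
  ∀ s : ℂ, 1 < s.re → HasProd (fun v : {v : HeightOneSpectrum (𝓞 K) // v ∉ S} =>
    (∏ j, (1 - r v.1 j * (norm v.1 : ℂ) ^ (-s)))⁻¹) (F s)

/-- `F` is meromorphic at `1/2` and at every point with `Re s > 1/2`. -/
def Mero (F : ℂ → ℂ) : Prop := (∀ s : ℂ, half < s.re → MeromorphicAt F s) ∧ MeromorphicAt F (half : ℂ)

/-- the central order is even -/
def Even (F : ℂ → ℂ) : Prop := ∀ m : ℤ, Order half F m → 2 ∣ m

/-- **Central values of meromorphically continued `L`-functions from one sequence of windows.** -/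
theorem result (K : Type) [Field K] [NumberField K] (n : ℕ) (S : Finset (HeightOneSpectrum (𝓞 K)))
    (r : HeightOneSpectrum (𝓞 K) → Fin n → ℂ) (hr : SelfDual S r) (F : ℂ → ℂ) (hE : Euler S r F)
    (δ : ℝ) (h0 : 0 < δ) (h1 : δ < 1) :
    (Mero F →
      -- (1)
      (∀ B : ℝ, (∃ᶠ Y : ℝ in atTop, MeanBound δ (fun y => |Real.log (product half S r y)|) B Y) →
        Free half F ∧ Order half F 0) ∧
      -- (2)
      (NoRealPoles half F → ∀ κ B : ℝ, (κ < 1 ∨ (Even F ∧ κ < 2)) →
        (∃ᶠ Y : ℝ in atTop, MeanBound δ (excess (product half S r) κ) B Y) →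
        Free half F ∧ ∃ m : ℤ, Order half F m ∧ m ≤ 0) ∧
      -- (3)
      (∀ A : ℝ, 0 < A → (∀ ε : ℝ, 0 < ε → ∃ᶠ Y : ℝ in atTop,
          MeanBound δ (fun y => |Real.log (A * productStar half S r y)|) ε Y) →
        Free half F ∧ Order half F 0 ∧ ∀ l : ℂ, Tendsto F (𝓝[≠] (half : ℂ)) (𝓝 l) → ‖l‖ = A) ∧
      -- (4)
      (NoRealPoles half F → Order half F 0 → ∀ l : ℂ, Tendsto F (𝓝[≠] (half : ℂ)) (𝓝 l) → ∀ A : ℝ, ‖l‖ < A →
        ∃ β : ℝ, 0 < β ∧ ∀ᶠ Y : ℝ in atTop, ¬ MeanBound δ (fun y => max (Real.log (A * productStar half S r y)) 0) β Y) ∧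
      -- (5)
      (NoRealPoles half F → ∀ m : ℤ, Order half F m → 1 ≤ m → ∀ κ B : ℝ, (κ < 1 ∨ (Even F ∧ κ < 2)) →
        ∀ᶠ Y : ℝ in atTop, ¬ MeanBound δ (excess (product half S r) κ) B Y)) ∧
    -- (6)
    (Holo half F →
      List.TFAE [
        NoZeros half F ∧ F half ≠ 0,
        ∃ B : ℝ, ∃ᶠ Y : ℝ in atTop, MeanBound δ (fun y => |Real.log (product half S r y)|) B Y,
        ∃ B : ℝ, ∀ᶠ Y : ℝ in atTop, MeanBound δ (fun y => |Real.log (product half S r y)|) B Y] ∧
      (∀ κ : ℝ, 0 ≤ κ → (κ < 1 ∨ (Even F ∧ κ < 2)) → List.TFAE [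
        NoZeros half F ∧ F half ≠ 0,
        ∃ B : ℝ, ∃ᶠ Y : ℝ in atTop, MeanBound δ (excess (product half S r) κ) B Y,
        ∃ B : ℝ, ∀ᶠ Y : ℝ in atTop, MeanBound δ (excess (product half S r) κ) B Y])) := by
  have hc : half = (((0 : ℕ) : ℝ) + 1) / 2 := by unfold half; norm_num
  have hP : Pool.Agent.Q18.P.Pure 0 S r := hr.pure
  have hE' : Pool.Agent.Q18.P.Euler half S r F := fun s hs => hE s (by unfold half at hs; linarith)
  have small : ∀ {κ : ℝ} {m : ℤ}, (κ < 1 ∨ (Even F ∧ κ < 2)) → Order half F m → (m : ℝ) ≤ κ → m ≤ 0 := by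
    intro κ m hκ hm hle
    rcases hκ with hκ | ⟨hev, hκ⟩
    · have h3 : (m : ℝ) < 1 := lt_of_le_of_lt hle hκ
      have h4 : m < 1 := by exact_mod_cast h3
      omega
    · have h3 : (m : ℝ) < 2 := lt_of_le_of_lt hle hκ
      have h4 : m < 2 := by exact_mod_cast h3
      have h5 := hev m hm
      omega
  have e0 : Pool.Agent.Q18.P.error (product half S r) 0 = fun y => |Real.log (product half S r y)| := by
    funext y
    unfold Pool.Agent.Q18.P.error
    rw [zero_mul, sub_zero]
  have er : ∀ (A : ℝ) (y : ℝ), Pool.Agent.Q18.P.ratio (productStar half S r) A 0 y =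
      Real.log (A * productStar half S r y) := by
    intro A y
    unfold Pool.Agent.Q18.P.ratio
    rw [Real.rpow_zero, div_one]
  have lead : ∀ l : ℂ, Order half F 0 → Tendsto F (𝓝[≠] (half : ℂ)) (𝓝 l) →
      Pool.Agent.Q18.P.IsLeading half F 0 l := fun l h3 h4 => ⟨h3, h4.congr fun s => by simp⟩
  refine ⟨fun hm => ?_, fun hH => ?_⟩
  · have hC : Pool.Agent.Q18.P.Continues half S r F := ⟨hm.1, hm.2, hE'⟩
    refine ⟨fun B hB => ?_, fun hrp κ B hκ hB => ?_, fun A hA hB => ?_, fun hrp ho l hl A hA => ?_,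
      fun hrp m ho hm1 κ B hκ => ?_⟩
    · rw [← e0] at hB
      obtain ⟨f1, e, f2, f3⟩ := Pool.Agent.Q18.P.two hc hP hC h0 h1 hB
      have e1 : (0 : ℤ) = e := by exact_mod_cast f2
      rw [← e1] at f3
      exact ⟨f1, f3⟩
    · obtain ⟨f1, e, f2, f3⟩ := Pool.Agent.Q18.P.one hc hP hC hrp h0 h1 hB
      exact ⟨f1, e, f2, small hκ f2 f3⟩
    · have hB' : ∀ ε : ℝ, 0 < ε → ∃ᶠ Y : ℝ in atTop,
          MeanBound δ (fun y => |Pool.Agent.Q18.P.ratio (productStar half S r) A 0 y|) ε Y := by
        simp only [er]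
        exact hB
      obtain ⟨f1, e, f2, f3, f4⟩ := Pool.Agent.Q18.P.lim hc hP hC h0 h1 hA hB'
      have e1 : (0 : ℤ) = e := by exact_mod_cast f2
      rw [← e1] at f3 f4
      exact ⟨f1, f3, fun l hl => f4 l (lead l f3 hl)⟩
    · have t := Pool.Agent.Q18.P.omega hc hP hC hrp h0 h1 (lead l ho hl) hA
      rw [Int.cast_zero] at t
      simp only [er] at t
      exact t
    · by_contra hcon
      rw [Filter.not_eventually] at hcon
      have hB : ∃ᶠ Y : ℝ in atTop, MeanBound δ (excess (product half S r) κ) B Y :=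
        hcon.mono fun Y hY => not_not.1 hY
      obtain ⟨f1, e, f2, f3⟩ := Pool.Agent.Q18.P.one hc hP hC hrp h0 h1 hB
      have f4 := small hκ f2 f3
      unfold Pool.Agent.Q18.P.Order at ho
      rw [ho] at f2
      have : m = e := by exact_mod_cast f2
      omega
  · have L := Pool.Agent.Q18.P.laws hc hP.le hH hE' h0 h1
    refine ⟨L.nonvanish hH, fun κ hκ0 hκ => ?_⟩
    have t := L.upper κ
    have e1 : (NoZeros half F ∧ ∃ m : ℤ, Order half F m ∧ (m : ℝ) ≤ κ) ↔ NoZeros half F ∧ F half ≠ 0 := by
      refine and_congr_right fun _ => ?_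
      rw [← Pool.Agent.Q18.P.value_iff hH]
      refine ⟨?_, fun h => ⟨0, h, by exact_mod_cast hκ0⟩⟩
      rintro ⟨m, hm, hmκ⟩
      have h4 := small hκ hm hmκ
      have h5 := Pool.Agent.Q18.P.order_nonneg hH hm
      have : m = 0 := by omega
      rw [← this]
      exact hm
    rw [e1] at t
    exact t

end Pool.Agent.Results.MP_41920c_nt.MeromorphicWindows
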